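import Pool.Agent.W601.RP.Stm2

/-! Project RP, part SEQ. -/

set_option autoImplicit false

open Filter Topology

namespace Pool.Agent.W977.RP

open Pool.Agent.W601.RP

theorem seq : S_SEQ := by
  intro X Y _ _ _ f hf hinj K hK z hz
  letI : MetricSpace Y := TopologicalSpace.metrizableSpaceMetric Y
  have hKc : CompactSpace ↥K := isCompact_iff_compactSpace.1 hK
  have hg : Continuous (fun x : ↥K => f x) := hf.comp continuous_subtype_val
  have hgi : Function.Injective (fun x : ↥K => f x) := fun x y h => Subtype.ext (hinj h)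
  have hemb : IsClosedEmbedding (fun x : ↥K => f x) := hg.isClosedEmbedding hgi
  have hcY : IsCompact (f '' K) := hK.image hf
  obtain ⟨y, ⟨a, ha, rfl⟩, φ, hφ, hlim⟩ := hcY.tendsto_subseq (x := fun n => f (z n))
    (fun n => ⟨z n, hz n, rfl⟩)
  refine ⟨a, ha, φ, hφ, ?_⟩
  have h1 : Tendsto (fun n => (⟨z (φ n), hz (φ n)⟩ : ↥K)) atTop (𝓝 ⟨a, ha⟩) := by
    rw [hemb.isInducing.tendsto_nhds_iff]
    exact hlim
  exact (continuous_subtype_val.tendsto _).comp h1

end Pool.Agent.W977.RP
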